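import Mathlib

set_option autoImplicit false

namespace Pool.Agent.Results.MP_686ee2_an.LocalPositive

open Finset

/-- Modulo the span of the rows of `A` in `R`, some `u` further rows of `A`, taken in some order
`e 0, e 1, …` and with suitable signs, have all their `d × d` minors nonzero and of one and the
same sign (the sign of `c`).  Here `Q : ℝ^d → ℝ^M` is injective with image in the space
orthogonal to the rows in `R`, so the rows of `A * Q` are the rows of `A` modulo those in `R`. -/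
def OneSignModulo {N M : ℕ} (A : Matrix (Fin N) (Fin M) ℝ) (R : Finset (Fin N)) (d u : ℕ) :
    Prop :=
  ∃ (Q : Matrix (Fin M) (Fin d) ℝ) (e : Fin u → Fin N) (s : Fin u → ℝ) (c : ℝ),
    (∀ y : Fin d → ℝ, Q.mulVec y = 0 → y = 0) ∧ (∀ k ∈ R, ∀ j, (A * Q) k j = 0) ∧
    Function.Injective e ∧ (∀ i, e i ∉ R) ∧ (∀ i, s i = 1 ∨ s i = -1) ∧
      ∀ f : Fin d → Fin u, StrictMono f →
        0 < c * (Matrix.of fun i j => s (f i) * (A * Q) (e (f i)) j).det

/-- `⟨a k, x⟩` -/
def ip {M : ℕ} (a : ℕ → Fin M → ℝ) (k : ℕ) (x : Fin M → ℝ) : ℝ := ∑ j, a k j * x j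

/-- all `M × M` minors of the rows `0, …, u - 1` have the same sign (the sign of `c`). -/
def SameSign {M : ℕ} (a : ℕ → Fin M → ℝ) (u : ℕ) (c : ℝ) : Prop :=
  ∀ f : Fin M → ℕ, StrictMono f → (∀ i, f i < u) →
    0 < c * (Matrix.of fun i j => a (f i) j).det

theorem ip_sub {M : ℕ} (a : ℕ → Fin M → ℝ) (k : ℕ) (x y : Fin M → ℝ) :
    ip a k (x - y) = ip a k x - ip a k y := by
  simp [ip, mul_sub, Finset.sum_sub_distrib]

theorem ip_smul {M : ℕ} (a : ℕ → Fin M → ℝ) (k : ℕ) (c : ℝ) (x : Fin M → ℝ) :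
    ip a k (c • x) = c * ip a k x := by
  simp only [ip, Pi.smul_apply, smul_eq_mul, Finset.mul_sum]
  exact Finset.sum_congr rfl fun _ _ => by ring

theorem nondeg {M : ℕ} {a : ℕ → Fin M → ℝ} {u : ℕ} {c : ℝ} (h : SameSign a u c)
    (V : Finset ℕ) (hV : V.card = M) (hVu : ∀ k ∈ V, k < u) (x : Fin M → ℝ)
    (hx : ∀ k ∈ V, ip a k x = 0) : x = 0 := by
  have h1 := h (V.orderEmbOfFin hV) (V.orderEmbOfFin hV).strictMono
    (fun i => hVu _ (Finset.orderEmbOfFin_mem V hV i))
  have h2 : (Matrix.of fun i j => a (V.orderEmbOfFin hV i) j).det ≠ 0 := by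
    intro h0; rw [h0] at h1; simp at h1
  apply Matrix.eq_zero_of_mulVec_eq_zero h2
  funext i
  exact hx _ (Finset.orderEmbOfFin_mem V hV i)

theorem card_lt_emb (n : ℕ) (W : Finset ℕ) (hW : W.card = n) (i : Fin n) :
    (W.filter (· < W.orderEmbOfFin hW i)).card = i := by
  classical
  have : W.filter (· < W.orderEmbOfFin hW i) =
      (Finset.Iio i).map (W.orderEmbOfFin hW).toEmbedding := by
    ext k
    simp only [Finset.mem_filter, Finset.mem_map, Finset.mem_Iio]
    constructor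
    · rintro ⟨hk, hlt⟩
      have : k ∈ Set.range (W.orderEmbOfFin hW) := by
        rw [Finset.range_orderEmbOfFin]; exact hk
      obtain ⟨j, rfl⟩ := this
      exact ⟨j, (W.orderEmbOfFin hW).lt_iff_lt.mp hlt, rfl⟩
    · rintro ⟨j, hj, rfl⟩
      exact ⟨Finset.orderEmbOfFin_mem W hW j, (W.orderEmbOfFin hW).lt_iff_lt.mpr hj⟩
  rw [this, Finset.card_map, Fin.card_Iio]

theorem signs {M : ℕ} {a : ℕ → Fin M → ℝ} {u : ℕ} {c : ℝ} (h : SameSign a u c)
    (W : Finset ℕ) (hW : W.card = M + 1) (hWu : ∀ k ∈ W, k < u) (x : Fin M → ℝ) (hx : x ≠ 0) :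
    ¬ ∀ k ∈ W, 0 ≤ (-1 : ℝ) ^ (W.filter (· < k)).card * ip a k x := by
  intro hall
  set e := W.orderEmbOfFin hW with he
  have hemem : ∀ i, e i ∈ W := fun i => Finset.orderEmbOfFin_mem W hW i
  have hv : ∀ i : Fin (M + 1), 0 ≤ (-1 : ℝ) ^ (i : ℕ) * ip a (e i) x := by
    intro i
    have := hall (e i) (hemem i)
    rwa [he, card_lt_emb (M + 1) W hW i] at this
  let B : Matrix (Fin (M + 1)) (Fin (M + 1)) ℝ :=
    fun i => Fin.cons (ip a (e i) x) (fun j => a (e i) j)
  have hdet : B.det = 0 := by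
    rw [← Matrix.exists_mulVec_eq_zero_iff]
    refine ⟨Fin.cons (-1) x, ?_, ?_⟩
    · intro h0
      have := congrFun h0 0
      simp at this
    · funext i
      simp only [B, Matrix.mulVec, dotProduct, Fin.sum_univ_succ, Fin.cons_zero, Fin.cons_succ,
        Pi.zero_apply, ip]
      ring
  rw [Matrix.det_succ_column_zero] at hdet
  have hD : ∀ i : Fin (M + 1), 0 < c * (B.submatrix i.succAbove Fin.succ).det := by
    intro i
    have : B.submatrix i.succAbove Fin.succ =
        Matrix.of fun i' j => a (e (i.succAbove i')) j := by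
      ext i' j
      simp [B]
    rw [this]
    exact h (fun i' => e (i.succAbove i'))
      (fun p q hpq => e.strictMono ((Fin.strictMono_succAbove i) hpq))
      (fun i' => hWu _ (hemem _))
  have hsum : ∑ i : Fin (M + 1), ((-1 : ℝ) ^ (i : ℕ) * ip a (e i) x) *
      (c * (B.submatrix i.succAbove Fin.succ).det) = 0 := by
    have : ∑ i : Fin (M + 1), ((-1 : ℝ) ^ (i : ℕ) * ip a (e i) x) *
      (c * (B.submatrix i.succAbove Fin.succ).det) = c * ∑ i : Fin (M + 1), (-1 : ℝ) ^ (i : ℕ) *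
        B i 0 * (B.submatrix i.succAbove Fin.succ).det := by
      rw [Finset.mul_sum]
      apply Finset.sum_congr rfl
      intro i _
      have : B i 0 = ip a (e i) x := by simp [B]
      rw [this]; ring
    rw [this, hdet, mul_zero]
  rw [Finset.sum_eq_zero_iff_of_nonneg (fun i _ => mul_nonneg (hv i) (hD i).le)] at hsum
  have hv0 : ∀ i, ip a (e i) x = 0 := by
    intro i
    have := hsum i (Finset.mem_univ i)
    rcases mul_eq_zero.mp this with h1 | h1
    · rcases mul_eq_zero.mp h1 with h2 | h2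
      · exact absurd h2 (pow_ne_zero _ (by norm_num))
      · exact h2
    · exact absurd h1 (hD i).ne'
  apply hx
  have hWne : W.Nonempty := by rw [← Finset.card_pos]; omega
  obtain ⟨w0, hw0⟩ := hWne
  apply nondeg h (W.erase w0) (by rw [Finset.card_erase_of_mem hw0]; omega)
    (fun k hk => hWu k (Finset.mem_of_mem_erase hk))
  intro k hk
  have : k ∈ Set.range e := by
    rw [he, Finset.range_orderEmbOfFin]; exact Finset.mem_of_mem_erase hk
  obtain ⟨i, rfl⟩ := this
  exact hv0 i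

theorem sign_lt {M : ℕ} {a : ℕ → Fin M → ℝ} {u : ℕ} {c : ℝ} (h : SameSign a u c) (hM : 1 ≤ M)
    (T : Finset ℕ) (hT : T.card = M - 1) (hTu : ∀ k ∈ T, k < u) (x : Fin M → ℝ) (hx : x ≠ 0)
    (hz : ∀ k ∈ T, ip a k x = 0) (k k' : ℕ) (hkk : k < k') (hk' : k' < u)
    (hkT : k ∉ T) (hkT' : k' ∉ T) :
    0 < ((-1 : ℝ) ^ (T.filter (· < k)).card * ip a k x) *
      ((-1 : ℝ) ^ (T.filter (· < k')).card * ip a k' x) := by
  classical
  set W := insert k (insert k' T) with hW
  have hk1 : k ∉ insert k' T := by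
    rw [Finset.mem_insert]; push Not; exact ⟨hkk.ne, hkT⟩
  have hWc : W.card = M + 1 := by
    rw [hW, Finset.card_insert_of_notMem hk1, Finset.card_insert_of_notMem hkT', hT]; omega
  have hWu : ∀ j ∈ W, j < u := by
    intro j hj
    rw [hW, Finset.mem_insert, Finset.mem_insert] at hj
    rcases hj with rfl | rfl | hj
    · omega
    · exact hk'
    · exact hTu j hj
  have c1 : (W.filter (· < k)).card = (T.filter (· < k)).card := by
    congr 1
    ext j
    simp only [hW, Finset.mem_filter, Finset.mem_insert]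
    constructor
    · rintro ⟨rfl | rfl | hj, hlt⟩
      · omega
      · omega
      · exact ⟨hj, hlt⟩
    · rintro ⟨hj, hlt⟩
      exact ⟨Or.inr (Or.inr hj), hlt⟩
  have c2 : (W.filter (· < k')).card = (T.filter (· < k')).card + 1 := by
    have : W.filter (· < k') = insert k (T.filter (· < k')) := by
      ext j
      simp only [hW, Finset.mem_filter, Finset.mem_insert]
      constructor
      · rintro ⟨rfl | rfl | hj, hlt⟩
        · exact Or.inl rfl
        · omega
        · exact Or.inr ⟨hj, hlt⟩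
      · rintro (rfl | ⟨hj, hlt⟩)
        · exact ⟨Or.inl rfl, hkk⟩
        · exact ⟨Or.inr (Or.inr hj), hlt⟩
    rw [this, Finset.card_insert_of_notMem]
    intro h1
    exact hkT (Finset.mem_filter.mp h1).1
  set p := (-1 : ℝ) ^ (T.filter (· < k)).card * ip a k x with hp
  set q := (-1 : ℝ) ^ (T.filter (· < k')).card * ip a k' x with hq
  have n1 : ¬ (0 ≤ p ∧ q ≤ 0) := by
    rintro ⟨hp0, hq0⟩
    apply signs h W hWc hWu x hx
    intro j hj
    rw [hW, Finset.mem_insert, Finset.mem_insert] at hj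
    rcases hj with rfl | rfl | hj
    · rw [c1]; exact hp0
    · rw [c2, pow_succ]
      have : (-1 : ℝ) ^ (T.filter (· < j)).card * -1 * ip a j x = -q := by rw [hq]; ring
      rw [this]; linarith
    · rw [hz j hj, mul_zero]
  have n2 : ¬ (p ≤ 0 ∧ 0 ≤ q) := by
    rintro ⟨hp0, hq0⟩
    have hx' : (-1 : ℝ) • x ≠ 0 := by simpa using hx
    apply signs h W hWc hWu ((-1 : ℝ) • x) hx'
    intro j hj
    rw [ip_smul]
    rw [hW, Finset.mem_insert, Finset.mem_insert] at hj
    rcases hj with rfl | rfl | hj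
    · rw [c1]
      have : (-1 : ℝ) ^ (T.filter (· < j)).card * (-1 * ip a j x) = -p := by rw [hp]; ring
      rw [this]; linarith
    · rw [c2, pow_succ]
      have : (-1 : ℝ) ^ (T.filter (· < j)).card * -1 * (-1 * ip a j x) = q := by rw [hq]; ring
      rw [this]; exact hq0
    · rw [hz j hj, mul_zero, mul_zero]
  rcases lt_trichotomy p 0 with h1 | h1 | h1
  · have : q < 0 := by
      by_contra h2; exact n2 ⟨h1.le, not_lt.mp h2⟩
    exact mul_pos_of_neg_of_neg h1 this
  · exfalso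
    rcases le_total q 0 with h2 | h2
    · exact n1 ⟨h1.ge, h2⟩
    · exact n2 ⟨h1.le, h2⟩
  · have : 0 < q := by
      by_contra h2; exact n1 ⟨h1.le, not_lt.mp h2⟩
    exact mul_pos h1 this

theorem exists_ker {M : ℕ} (hM : 1 ≤ M) (a : ℕ → Fin M → ℝ) (T : Finset ℕ)
    (hT : T.card = M - 1) : ∃ x : Fin M → ℝ, x ≠ 0 ∧ ∀ k ∈ T, ip a k x = 0 := by
  classical
  let L : (Fin M → ℝ) →ₗ[ℝ] (T → ℝ) :=
    { toFun := fun x k => ip a k x
      map_add' := by
        intro x y; funext k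
        simp [ip, mul_add, Finset.sum_add_distrib]
      map_smul' := by
        intro r x; funext k
        rw [ip_smul]; simp }
  have hlt : Module.finrank ℝ (T → ℝ) < Module.finrank ℝ (Fin M → ℝ) := by
    rw [Module.finrank_fintype_fun_eq_card, Module.finrank_fintype_fun_eq_card]
    simp only [Fintype.card_coe, Fintype.card_fin]
    omega
  have hker := LinearMap.ker_ne_bot_of_finrank_lt (f := L) hlt
  obtain ⟨x, hx, hx0⟩ := Submodule.exists_mem_ne_zero_of_ne_bot hker
  refine ⟨x, hx0, ?_⟩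
  intro k hk
  have := congrFun (LinearMap.mem_ker.mp hx) ⟨k, hk⟩
  exact this

/-- the normalised kernel vectors -/
theorem exists_Z {M : ℕ} {a : ℕ → Fin M → ℝ} {u : ℕ} {c : ℝ} (h : SameSign a u c) (hM : 1 ≤ M)
    (l : ℕ) (hl : l < u) :
    ∃ Z : Finset ℕ → Fin M → ℝ, ∀ T : Finset ℕ, T.card = M - 1 → (∀ k ∈ T, k < u) → l ∉ T →
      (∀ k ∈ T, ip a k (Z T) = 0) ∧ ip a l (Z T) = 1 := by
  classical
  have : ∀ T : Finset ℕ, ∃ z : Fin M → ℝ, T.card = M - 1 → (∀ k ∈ T, k < u) → l ∉ T →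
      (∀ k ∈ T, ip a k z = 0) ∧ ip a l z = 1 := by
    intro T
    by_cases hT : T.card = M - 1 ∧ (∀ k ∈ T, k < u) ∧ l ∉ T
    · obtain ⟨hT, hTu, hlT⟩ := hT
      obtain ⟨x, hx, hxT⟩ := exists_ker hM a T hT
      have hl0 : ip a l x ≠ 0 := by
        intro h0
        apply hx
        apply nondeg h (insert l T) (by rw [Finset.card_insert_of_notMem hlT, hT]; omega)
        · intro k hk
          rw [Finset.mem_insert] at hk
          rcases hk with rfl | hk
          · exact hl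
          · exact hTu k hk
        · intro k hk
          rw [Finset.mem_insert] at hk
          rcases hk with rfl | hk
          · exact h0
          · exact hxT k hk
      refine ⟨(ip a l x)⁻¹ • x, fun _ _ _ => ⟨?_, ?_⟩⟩
      · intro k hk
        rw [ip_smul, hxT k hk, mul_zero]
      · rw [ip_smul, inv_mul_cancel₀ hl0]
    · exact ⟨0, fun h1 h2 h3 => absurd ⟨h1, h2, h3⟩ hT⟩
  choose Z hZ using this
  exact ⟨Z, hZ⟩

/-- coordinates on the pencil through `F` -/
theorem coords {M : ℕ} {a : ℕ → Fin M → ℝ} {u : ℕ} {c : ℝ} (h : SameSign a u c) (hM : 2 ≤ M)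
    (l : ℕ) (hl : l < u) (Z : Finset ℕ → Fin M → ℝ)
    (hZ : ∀ T : Finset ℕ, T.card = M - 1 → (∀ k ∈ T, k < u) → l ∉ T →
      (∀ k ∈ T, ip a k (Z T) = 0) ∧ ip a l (Z T) = 1)
    (F : Finset ℕ) (hF : F.card = M - 2) (hFu : ∀ k ∈ F, k < u) (hlF : l ∉ F)
    (b : ℕ) (hbF : b ∉ F) (hbl : b < l) :
    ∃ α v : ℕ → ℝ,
      (∀ m j, m ∉ F → m < l → j ∉ F → j < l → ip a m (Z (insert j F)) = α m * (v j - v m)) ∧
      (∀ p q r, p < q → q < r → r < l → p ∉ F → q ∉ F → r ∉ F →
        0 < (v q - v p) * (v r - v q)) := by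
  classical
  have hcard : ∀ j, j ∉ F → (insert j F).card = M - 1 := by
    intro j hj; rw [Finset.card_insert_of_notMem hj, hF]; omega
  have hlt : ∀ j, j < u → ∀ k ∈ insert j F, k < u := by
    intro j hj k hk
    rw [Finset.mem_insert] at hk
    rcases hk with rfl | hk
    · exact hj
    · exact hFu k hk
  obtain ⟨e1, he1, he1F⟩ := exists_ker (by omega) a (insert l F) (hcard l hlF)
  have hl1 : ip a l e1 = 0 := he1F l (Finset.mem_insert_self _ _)
  have hF1 : ∀ k ∈ F, ip a k e1 = 0 := fun k hk => he1F k (Finset.mem_insert_of_mem hk)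
  have hZj : ∀ j, j ∉ F → j < l → (∀ k ∈ F, ip a k (Z (insert j F)) = 0) ∧
      ip a j (Z (insert j F)) = 0 ∧ ip a l (Z (insert j F)) = 1 := by
    intro j hj hjl
    have := hZ (insert j F) (hcard j hj) (hlt j (by omega)) (by
      rw [Finset.mem_insert]; push Not; exact ⟨by omega, hlF⟩)
    exact ⟨fun k hk => this.1 k (Finset.mem_insert_of_mem hk),
      this.1 j (Finset.mem_insert_self _ _), this.2⟩
  have nd2 : ∀ x : Fin M → ℝ, (∀ k ∈ F, ip a k x = 0) → ip a l x = 0 → ip a b x = 0 → x = 0 := by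
    intro x h1 h2 h3
    apply nondeg h (insert b (insert l F))
    · rw [Finset.card_insert_of_notMem, hcard l hlF]
      · omega
      · rw [Finset.mem_insert]; push Not; exact ⟨by omega, hbF⟩
    · intro k hk
      rw [Finset.mem_insert, Finset.mem_insert] at hk
      rcases hk with rfl | rfl | hk
      · omega
      · exact hl
      · exact hFu k hk
    · intro k hk
      rw [Finset.mem_insert, Finset.mem_insert] at hk
      rcases hk with rfl | rfl | hk
      · exact h3
      · exact h2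
      · exact h1 k hk
  have hb1 : ip a b e1 ≠ 0 := fun h0 => he1 (nd2 e1 hF1 hl1 h0)
  set α : ℕ → ℝ := fun m => ip a m e1 with hα
  set v : ℕ → ℝ := fun j => ip a b (Z (insert j F)) / ip a b e1 with hv
  have hexp : ∀ j, j ∉ F → j < l → ∀ m, ip a m (Z (insert j F)) =
      ip a m (Z (insert b F)) + v j * α m := by
    intro j hj hjl m
    obtain ⟨z1, z2, z3⟩ := hZj j hj hjl
    obtain ⟨y1, y2, y3⟩ := hZj b hbF hbl
    have : Z (insert j F) - Z (insert b F) - v j • e1 = 0 := by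
      apply nd2
      · intro k hk
        rw [ip_sub, ip_sub, ip_smul, z1 k hk, y1 k hk, hF1 k hk]; ring
      · rw [ip_sub, ip_sub, ip_smul, z3, y3, hl1]; ring
      · rw [ip_sub, ip_sub, ip_smul, y2]
        simp only [hv]
        field_simp
        ring
    have h2 := congrArg (ip a m) this
    rw [ip_sub, ip_sub, ip_smul] at h2
    have h3 : ip a m (0 : Fin M → ℝ) = 0 := by simp [ip]
    rw [h3] at h2
    simp only [hα]
    linarith
  have hmain : ∀ m j, m ∉ F → m < l → j ∉ F → j < l →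
      ip a m (Z (insert j F)) = α m * (v j - v m) := by
    intro m j hm hml hj hjl
    have h1 := hexp j hj hjl m
    have h2 := hexp m hm hml m
    rw [(hZj m hm hml).2.1] at h2
    rw [h1]
    linarith
  refine ⟨α, v, hmain, ?_⟩
  intro p q r hpq hqr hrl hp hq hr
  have hflt : ∀ m, m < l → ((insert l F).filter (· < m)).card = (F.filter (· < m)).card := by
    intro m hm
    congr 1
    ext j
    simp only [Finset.mem_filter, Finset.mem_insert]
    constructor
    · rintro ⟨rfl | hj, hlt⟩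
      · omega
      · exact ⟨hj, hlt⟩
    · rintro ⟨hj, hlt⟩
      exact ⟨Or.inr hj, hlt⟩
  have s1 := sign_lt h (by omega) (insert l F) (hcard l hlF) (hlt l hl) e1 he1 he1F p r
    (by omega) (by omega)
    (by rw [Finset.mem_insert]; push Not; exact ⟨by omega, hp⟩)
    (by rw [Finset.mem_insert]; push Not; exact ⟨by omega, hr⟩)
  rw [hflt p (by omega), hflt r hrl] at s1
  have hq' := hZ (insert q F) (hcard q hq) (hlt q (by omega)) (by
      rw [Finset.mem_insert]; push Not; exact ⟨by omega, hlF⟩)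
  have hZq0 : Z (insert q F) ≠ 0 := by
    intro h0
    have := hq'.2
    rw [h0] at this
    simp [ip] at this
  have s2 := sign_lt h (by omega) (insert q F) (hcard q hq) (hlt q (by omega)) (Z (insert q F))
    hZq0 hq'.1 p r (by omega) (by omega)
    (by rw [Finset.mem_insert]; push Not; exact ⟨by omega, hp⟩)
    (by rw [Finset.mem_insert]; push Not; exact ⟨by omega, hr⟩)
  have f1 : ((insert q F).filter (· < p)).card = (F.filter (· < p)).card := by
    congr 1
    ext j
    simp only [Finset.mem_filter, Finset.mem_insert]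
    constructor
    · rintro ⟨rfl | hj, hlt⟩
      · omega
      · exact ⟨hj, hlt⟩
    · rintro ⟨hj, hlt⟩
      exact ⟨Or.inr hj, hlt⟩
  have f2 : ((insert q F).filter (· < r)).card = (F.filter (· < r)).card + 1 := by
    have : (insert q F).filter (· < r) = insert q (F.filter (· < r)) := by
      ext j
      simp only [Finset.mem_filter, Finset.mem_insert]
      constructor
      · rintro ⟨rfl | hj, hlt⟩
        · exact Or.inl rfl
        · exact Or.inr ⟨hj, hlt⟩
      · rintro (rfl | ⟨hj, hlt⟩)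
        · exact ⟨Or.inl rfl, hqr⟩
        · exact ⟨Or.inr hj, hlt⟩
    rw [this, Finset.card_insert_of_notMem]
    intro h1
    exact hq (Finset.mem_filter.mp h1).1
  rw [f1, f2, hmain p q hp (by omega) hq (by omega), hmain r q hr hrl hq (by omega)] at s2
  have e : ((-1 : ℝ) ^ (F.filter (· < p)).card * (α p * (v q - v p))) *
      ((-1 : ℝ) ^ ((F.filter (· < r)).card + 1) * (α r * (v q - v r))) =
      (((-1 : ℝ) ^ (F.filter (· < p)).card * ip a p e1) *
        ((-1 : ℝ) ^ (F.filter (· < r)).card * ip a r e1)) * ((v q - v p) * (v r - v q)) := by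
    rw [pow_succ]
    simp only [hα]
    ring
  rw [e] at s2
  exact (pos_iff_pos_of_mul_pos s2).mp s1

theorem step {M : ℕ} {a : ℕ → Fin M → ℝ} {u : ℕ} {c : ℝ} (h : SameSign a u c) (hM : 2 ≤ M)
    (l : ℕ) (hl : l < u) (Z : Finset ℕ → Fin M → ℝ)
    (hZ : ∀ T : Finset ℕ, T.card = M - 1 → (∀ k ∈ T, k < u) → l ∉ T →
      (∀ k ∈ T, ip a k (Z T) = 0) ∧ ip a l (Z T) = 1)
    (F : Finset ℕ) (hF : F.card = M - 2) (hFu : ∀ k ∈ F, k < u) (hlF : l ∉ F)
    (b g d : ℕ) (hbg : b < g) (hgd : g < d) (hdl : d < l) (hbF : b ∉ F) (hgF : g ∉ F)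
    (hdF : d ∉ F) :
    ∃ θ : ℝ, 0 ≤ θ ∧ θ ≤ 1 ∧
      (∀ j i, j ∉ F → i ∉ F → b < j → j < g → d < i → i < l →
        |ip a b (Z (insert j F))| ≤ θ * |ip a b (Z (insert i F))|) ∧
      (∀ j i, j ∉ F → i ∉ F → g < j → j < d → i < b →
        |ip a d (Z (insert j F))| ≤ (1 - θ) * |ip a d (Z (insert i F))|) := by
  obtain ⟨α, v, hval, hbet⟩ := coords h hM l hl Z hZ F hF hFu hlF b hbF (by omega)
  -- betweenness in absolute values
  have habs : ∀ x y z : ℝ, 0 < (y - x) * (z - y) → |z - x| = |y - x| + |z - y| := by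
    intro x y z hxyz
    rcases (mul_pos_iff.mp hxyz) with ⟨h1, h2⟩ | ⟨h1, h2⟩
    · rw [abs_of_pos h1, abs_of_pos h2, abs_of_pos (by linarith)]; ring
    · rw [abs_of_neg h1, abs_of_neg h2, abs_of_neg (by linarith)]; ring
  have hbgd := hbet b g d hbg hgd hdl hbF hgF hdF
  have hA := habs _ _ _ hbgd
  have hpos1 : 0 < |v g - v b| := abs_pos.mpr (fun h0 => by rw [h0] at hbgd; simp at hbgd)
  have hpos2 : 0 < |v d - v g| := abs_pos.mpr (fun h0 => by rw [h0] at hbgd; simp at hbgd)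
  have hpos : 0 < |v d - v b| := by rw [hA]; linarith
  refine ⟨|v g - v b| / |v d - v b|, by positivity, ?_, ?_, ?_⟩
  · rw [div_le_one hpos, hA]; linarith
  · intro j i hj hi hbj hjg hdi hil
    rw [hval b j hbF (by omega) hj (by omega), hval b i hbF (by omega) hi hil, abs_mul, abs_mul]
    have h1 := habs _ _ _ (hbet b j g hbj hjg (by omega) hbF hj hgF)
    have h2 := habs _ _ _ (hbet b d i (by omega) hdi hil hbF hdF hi)
    have h3 : |v j - v b| ≤ |v g - v b| := by rw [h1]; linarith [abs_nonneg (v g - v j)]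
    have h4 : |v d - v b| ≤ |v i - v b| := by rw [h2]; linarith [abs_nonneg (v i - v d)]
    have h5 : |v j - v b| ≤ |v g - v b| / |v d - v b| * |v i - v b| := by
      rw [div_mul_eq_mul_div, le_div_iff₀ hpos]
      exact mul_le_mul h3 h4 hpos.le (abs_nonneg _)
    calc |α b| * |v j - v b| ≤ |α b| * (|v g - v b| / |v d - v b| * |v i - v b|) := by gcongr
      _ = _ := by ring
  · intro j i hj hi hgj hjd hib
    rw [hval d j hdF hdl hj (by omega), hval d i hdF hdl hi (by omega), abs_mul, abs_mul]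
    have h1 := habs _ _ _ (hbet g j d hgj hjd hdl hgF hj hdF)
    have h2 := habs _ _ _ (hbet i b d hib (by omega) hdl hi hbF hdF)
    have h3 : |v j - v d| ≤ |v d - v g| := by
      rw [abs_sub_comm, h1]; linarith [abs_nonneg (v j - v g)]
    have h4 : |v d - v b| ≤ |v i - v d| := by
      rw [abs_sub_comm (v i), h2]; linarith [abs_nonneg (v b - v i)]
    have h6 : 1 - |v g - v b| / |v d - v b| = |v d - v g| / |v d - v b| := by
      rw [eq_div_iff hpos.ne', sub_mul, div_mul_cancel₀ _ hpos.ne', hA]; ring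
    rw [h6]
    have h5 : |v j - v d| ≤ |v d - v g| / |v d - v b| * |v i - v d| := by
      rw [div_mul_eq_mul_div, le_div_iff₀ hpos]
      exact mul_le_mul h3 h4 hpos.le (abs_nonneg _)
    calc |α d| * |v j - v d| ≤ |α d| * (|v d - v g| / |v d - v b| * |v i - v d|) := by gcongr
      _ = _ := by ring

theorem chain (m : ℕ) (x : ℕ → ℝ) (θ : ℕ → ℝ) (hθ : ∀ s < m, 0 ≤ θ s)
    (hx : ∀ s < m, x (s + 1) ≤ θ s * x s) : x m ≤ (∏ s ∈ range m, θ s) * x 0 := by
  induction m with
  | zero => simp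
  | succ m ih =>
    have h1 := ih (fun s hs => hθ s (by omega)) (fun s hs => hx s (by omega))
    rw [Finset.prod_range_succ]
    calc x (m + 1) ≤ θ m * x m := hx m (by omega)
      _ ≤ θ m * ((∏ s ∈ range m, θ s) * x 0) :=
          mul_le_mul_of_nonneg_left h1 (hθ m (by omega))
      _ = _ := by ring

/-- the double product argument -/
theorem dbl (m : ℕ) (θ : ℕ → ℕ → ℝ) (h0 : ∀ s t, 0 ≤ θ s t) (h1 : ∀ s t, θ s t ≤ 1)
    (hm : 0 < m) :
    (∃ t < m, ∏ s ∈ range m, θ s t ≤ (1 / 2 : ℝ) ^ m) ∨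
      (∃ s < m, ∏ t ∈ range m, (1 - θ s t) ≤ (1 / 2 : ℝ) ^ m) := by
  by_contra hcon
  push Not at hcon
  obtain ⟨c1, c2⟩ := hcon
  have p1 : (((1 / 2 : ℝ) ^ m) ^ m) < ∏ t ∈ range m, ∏ s ∈ range m, θ s t := by
    have : ((1 / 2 : ℝ) ^ m) ^ m = ∏ t ∈ range m, (1 / 2 : ℝ) ^ m := by simp
    rw [this]
    apply Finset.prod_lt_prod_of_nonempty
    · intro _ _; positivity
    · intro t ht; exact c1 t (Finset.mem_range.mp ht)
    · simpa using hm.ne'
  have p2 : (((1 / 2 : ℝ) ^ m) ^ m) < ∏ s ∈ range m, ∏ t ∈ range m, (1 - θ s t) := by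
    have : ((1 / 2 : ℝ) ^ m) ^ m = ∏ t ∈ range m, (1 / 2 : ℝ) ^ m := by simp
    rw [this]
    apply Finset.prod_lt_prod_of_nonempty
    · intro _ _; positivity
    · intro t ht; exact c2 t (Finset.mem_range.mp ht)
    · simpa using hm.ne'
  rw [Finset.prod_comm] at p1
  have p3 : (((1 / 2 : ℝ) ^ m) ^ m) * (((1 / 2 : ℝ) ^ m) ^ m) <
      (∏ s ∈ range m, ∏ t ∈ range m, θ s t) * ∏ s ∈ range m, ∏ t ∈ range m, (1 - θ s t) :=
    mul_lt_mul'' p1 p2 (by positivity) (by positivity)
  rw [← Finset.prod_mul_distrib] at p3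
  have p4 : ∏ s ∈ range m, ((∏ t ∈ range m, θ s t) * ∏ t ∈ range m, (1 - θ s t)) ≤
      ∏ s ∈ range m, ∏ t ∈ range m, (1 / 4 : ℝ) := by
    apply Finset.prod_le_prod
    · intro s _
      exact mul_nonneg (Finset.prod_nonneg fun t _ => h0 s t)
        (Finset.prod_nonneg fun t _ => by linarith [h1 s t])
    · intro s _
      rw [← Finset.prod_mul_distrib]
      apply Finset.prod_le_prod
      · intro t _
        exact mul_nonneg (h0 s t) (by linarith [h1 s t])
      · intro t _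
        nlinarith [sq_nonneg (θ s t - 1 / 2)]
  have p5 : ∏ s ∈ range m, ∏ t ∈ range m, (1 / 4 : ℝ) =
      (((1 / 2 : ℝ) ^ m) ^ m) * (((1 / 2 : ℝ) ^ m) ^ m) := by
    simp only [Finset.prod_const, Finset.card_range]
    rw [← mul_pow, ← mul_pow]; norm_num
  rw [p5] at p4
  exact absurd p3 (not_lt.mpr p4)

/-- index sets -/
def FF (m r s t : ℕ) : Finset ℕ :=
  Finset.Ico (m + 1) (m + 1 + s) ∪ Finset.Ico (3 * m + 3 + s + 1) (4 * m + 3) ∪
    Finset.Ico (2 * m + 2) (2 * m + 2 + t) ∪ Finset.Ico (t + 1) m ∪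
      Finset.Ico (4 * m + 3) (4 * m + 3 + r)

theorem mem_FF (m r s t j : ℕ) : j ∈ FF m r s t ↔
    ((m + 1 ≤ j ∧ j < m + 1 + s) ∨ (3 * m + 3 + s + 1 ≤ j ∧ j < 4 * m + 3) ∨
      (2 * m + 2 ≤ j ∧ j < 2 * m + 2 + t) ∨ (t + 1 ≤ j ∧ j < m) ∨
        (4 * m + 3 ≤ j ∧ j < 4 * m + 3 + r)) := by
  simp only [FF, Finset.mem_union, Finset.mem_Ico]
  tauto

theorem card_FF (m r s t : ℕ) (hs : s < m) (ht : t < m) :
    (FF m r s t).card = 2 * (m - 1) + r := by
  unfold FF
  rw [Finset.card_union_of_disjoint, Finset.card_union_of_disjoint,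
    Finset.card_union_of_disjoint, Finset.card_union_of_disjoint]
  · simp only [Nat.card_Ico]; omega
  all_goals
    rw [Finset.disjoint_left]
    intro x hx hy
    simp only [Finset.mem_union, Finset.mem_Ico] at hx hy
    omega

theorem core {M : ℕ} {a : ℕ → Fin M → ℝ} {u : ℕ} {c : ℝ} (h : SameSign a u c) (hM : 2 ≤ M)
    (m : ℕ) (hm : 0 < m) (h1 : M + 2 * m + 4 ≤ u) (h2 : 2 * m ≤ M) :
    ∃ T : Finset ℕ, T.card = M - 1 ∧ (∀ k ∈ T, k < u) ∧ ∃ k < u, ∃ l < u, k ∉ T ∧
      ∃ x : Fin M → ℝ, x ≠ 0 ∧ (∀ j ∈ T, ip a j x = 0) ∧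
        ip a k x ^ 2 * 2 ^ m ≤ ip a l x ^ 2 := by
  classical
  set r := M - 2 * m with hr
  set l := u - 1 with hl
  set b := m with hb
  set g := 2 * m + 1 with hg
  set d := 3 * m + 2 with hd
  have hlu : l < u := by omega
  obtain ⟨Z, hZ⟩ := exists_Z h (by omega) l hlu
  have hstep : ∀ s t, ∃ θ : ℝ, 0 ≤ θ ∧ θ ≤ 1 ∧ (s < m → t < m →
      (∀ j i, j ∉ FF m r s t → i ∉ FF m r s t → b < j → j < g → d < i → i < l →
        |ip a b (Z (insert j (FF m r s t)))| ≤ θ * |ip a b (Z (insert i (FF m r s t)))|) ∧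
      (∀ j i, j ∉ FF m r s t → i ∉ FF m r s t → g < j → j < d → i < b →
        |ip a d (Z (insert j (FF m r s t)))| ≤
          (1 - θ) * |ip a d (Z (insert i (FF m r s t)))|)) := by
    intro s t
    by_cases hst : s < m ∧ t < m
    · obtain ⟨hs, ht⟩ := hst
      obtain ⟨θ, q1, q2, q3, q4⟩ := step h hM l hlu Z hZ (FF m r s t)
        (by rw [card_FF m r s t hs ht]; omega)
        (by intro k hk; rw [mem_FF] at hk; omega)
        (by rw [mem_FF]; omega) b g d (by omega) (by omega) (by omega)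
        (by rw [mem_FF]; omega) (by rw [mem_FF]; omega) (by rw [mem_FF]; omega)
      exact ⟨θ, q1, q2, fun _ _ => ⟨q3, q4⟩⟩
    · exact ⟨0, le_refl _, zero_le_one, fun h3 h4 => absurd ⟨h3, h4⟩ hst⟩
  choose θ hθ0 hθ1 hθ using hstep
  -- final step from a ratio
  have fin : ∀ (T T' : Finset ℕ) (k : ℕ), k < u → k ≠ l → T.card = M - 1 → T'.card = M - 1 →
      (∀ j ∈ T, j < u) → (∀ j ∈ T', j < u) → l ∉ T → l ∉ T' → k ∉ T → k ∉ T' →
      |ip a k (Z T)| ≤ (1 / 2 : ℝ) ^ m * |ip a k (Z T')| →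
      ∃ T : Finset ℕ, T.card = M - 1 ∧ (∀ k ∈ T, k < u) ∧ ∃ k < u, ∃ l < u, k ∉ T ∧
      ∃ x : Fin M → ℝ, x ≠ 0 ∧ (∀ j ∈ T, ip a j x = 0) ∧
        ip a k x ^ 2 * 2 ^ m ≤ ip a l x ^ 2 := by
    intro T T' k hk hkl hT hT' hTu hTu' hlT hlT' hkT hkT' hle
    obtain ⟨z1, z2⟩ := hZ T hT hTu hlT
    obtain ⟨z1', z2'⟩ := hZ T' hT' hTu' hlT'
    have nz : ∀ x : Fin M → ℝ, ip a l x = 1 → x ≠ 0 := by
      intro x hx h0
      rw [h0] at hx
      simp [ip] at hx
    by_cases hc : ip a k (Z T) ^ 2 * 2 ^ m ≤ 1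
    · exact ⟨T, hT, hTu, k, hk, l, hlu, hkT, Z T, nz _ z2, z1, by rw [z2, one_pow]; exact hc⟩
    · refine ⟨T', hT', hTu', l, hlu, k, hk, hlT', Z T', nz _ z2', z1', ?_⟩
      rw [z2', one_pow, one_mul]
      push Not at hc
      have e1 : ip a k (Z T) ^ 2 ≤ (1 / 4 : ℝ) ^ m * ip a k (Z T') ^ 2 := by
        have := pow_le_pow_left₀ (abs_nonneg _) hle 2
        rw [mul_pow, sq_abs, sq_abs, ← pow_mul, mul_comm m 2, pow_mul] at this
        norm_num at this ⊢
        exact this
      have e2 : ip a k (Z T) ^ 2 * 4 ^ m ≤ ip a k (Z T') ^ 2 := by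
        calc ip a k (Z T) ^ 2 * 4 ^ m ≤ ((1 / 4 : ℝ) ^ m * ip a k (Z T') ^ 2) * 4 ^ m := by gcongr
          _ = ((1 / 4 : ℝ) * 4) ^ m * ip a k (Z T') ^ 2 := by rw [mul_pow]; ring
          _ = _ := by norm_num
      have h8 : (4 : ℝ) ^ m = 2 ^ m * 2 ^ m := by rw [← mul_pow]; norm_num
      calc (2 : ℝ) ^ m = 1 * 2 ^ m := by ring
        _ ≤ (ip a k (Z T) ^ 2 * 2 ^ m) * 2 ^ m := by gcongr
        _ = ip a k (Z T) ^ 2 * 4 ^ m := by rw [h8]; ring
        _ ≤ _ := e2
  rcases dbl m θ hθ0 hθ1 hm with ⟨t, ht, hprod⟩ | ⟨s, hs, hprod⟩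
  · -- moves for `k = b`
    let T : ℕ → Finset ℕ := fun s =>
      Finset.Ico (m + 1) (m + 1 + s) ∪ Finset.Ico (3 * m + 3 + s) (4 * m + 3) ∪
        Finset.Ico (2 * m + 2) (2 * m + 2 + t) ∪ Finset.Ico (t + 1) m ∪
          Finset.Ico (4 * m + 3) (4 * m + 3 + r)
    have memT : ∀ s j, j ∈ T s ↔ ((m + 1 ≤ j ∧ j < m + 1 + s) ∨
        (3 * m + 3 + s ≤ j ∧ j < 4 * m + 3) ∨
        (2 * m + 2 ≤ j ∧ j < 2 * m + 2 + t) ∨ (t + 1 ≤ j ∧ j < m) ∨
        (4 * m + 3 ≤ j ∧ j < 4 * m + 3 + r)) := by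
      intro s j
      simp only [T, Finset.mem_union, Finset.mem_Ico]
      tauto
    have hT1 : ∀ s < m, insert (3 * m + 3 + s) (FF m r s t) = T s := by
      intro s hs
      ext j
      rw [Finset.mem_insert, mem_FF, memT]
      omega
    have hT2 : ∀ s < m, insert (m + 1 + s) (FF m r s t) = T (s + 1) := by
      intro s hs
      ext j
      rw [Finset.mem_insert, mem_FF, memT]
      omega
    have hTc0 : ∀ s < m, (T s).card = M - 1 := by
      intro s hs
      rw [← hT1 s hs, Finset.card_insert_of_notMem (by rw [mem_FF]; omega),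
        card_FF m r s t hs ht]
      omega
    have hTcm : (T m).card = M - 1 := by
      have e : T m = insert (m + 1 + (m - 1)) (FF m r (m - 1) t) := by
        rw [hT2 (m - 1) (by omega)]; congr 1; omega
      rw [e, Finset.card_insert_of_notMem (by rw [mem_FF]; omega),
        card_FF m r (m - 1) t (by omega) ht]
      omega
    have hch := chain m (fun s => |ip a b (Z (T s))|) (fun s => θ s t)
      (fun s _ => hθ0 s t) (by
        intro s hs
        have := (hθ s t hs ht).1 (m + 1 + s) (3 * m + 3 + s) (by rw [mem_FF]; omega)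
          (by rw [mem_FF]; omega) (by omega) (by omega) (by omega) (by omega)
        rw [hT1 s hs, hT2 s hs] at this
        exact this)
    apply fin (T m) (T 0) b (by omega) (by omega) hTcm (hTc0 0 hm)
      (by intro j hj; rw [memT] at hj; omega) (by intro j hj; rw [memT] at hj; omega)
      (by rw [memT]; omega) (by rw [memT]; omega) (by rw [memT]; omega) (by rw [memT]; omega)
    exact hch.trans (mul_le_mul_of_nonneg_right hprod (abs_nonneg _))
  · -- moves for `k = d`
    let T : ℕ → Finset ℕ := fun t =>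
      Finset.Ico (m + 1) (m + 1 + s) ∪ Finset.Ico (3 * m + 3 + s + 1) (4 * m + 3) ∪
        Finset.Ico (2 * m + 2) (2 * m + 2 + t) ∪ Finset.Ico t m ∪
          Finset.Ico (4 * m + 3) (4 * m + 3 + r)
    have memT : ∀ t j, j ∈ T t ↔ ((m + 1 ≤ j ∧ j < m + 1 + s) ∨
        (3 * m + 3 + s + 1 ≤ j ∧ j < 4 * m + 3) ∨
        (2 * m + 2 ≤ j ∧ j < 2 * m + 2 + t) ∨ (t ≤ j ∧ j < m) ∨
        (4 * m + 3 ≤ j ∧ j < 4 * m + 3 + r)) := by
      intro t j
      simp only [T, Finset.mem_union, Finset.mem_Ico]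
      tauto
    have hT1 : ∀ t < m, insert t (FF m r s t) = T t := by
      intro t ht
      ext j
      rw [Finset.mem_insert, mem_FF, memT]
      omega
    have hT2 : ∀ t < m, insert (2 * m + 2 + t) (FF m r s t) = T (t + 1) := by
      intro t ht
      ext j
      rw [Finset.mem_insert, mem_FF, memT]
      omega
    have hTc0 : ∀ t < m, (T t).card = M - 1 := by
      intro t ht
      rw [← hT1 t ht, Finset.card_insert_of_notMem (by rw [mem_FF]; omega),
        card_FF m r s t hs ht]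
      omega
    have hTcm : (T m).card = M - 1 := by
      have e : T m = insert (2 * m + 2 + (m - 1)) (FF m r s (m - 1)) := by
        rw [hT2 (m - 1) (by omega)]; congr 1; omega
      rw [e, Finset.card_insert_of_notMem (by rw [mem_FF]; omega),
        card_FF m r s (m - 1) hs (by omega)]
      omega
    have hch := chain m (fun t => |ip a d (Z (T t))|) (fun t => 1 - θ s t)
      (fun t _ => by linarith [hθ1 s t]) (by
        intro t ht
        have := (hθ s t hs ht).2 (2 * m + 2 + t) t (by rw [mem_FF]; omega)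
          (by rw [mem_FF]; omega) (by omega) (by omega) (by omega)
        rw [hT1 t ht, hT2 t ht] at this
        exact this)
    apply fin (T m) (T 0) d (by omega) (by omega) hTcm (hTc0 0 hm)
      (by intro j hj; rw [memT] at hj; omega) (by intro j hj; rw [memT] at hj; omega)
      (by rw [memT]; omega) (by rw [memT]; omega) (by rw [memT]; omega) (by rw [memT]; omega)
    exact hch.trans (mul_le_mul_of_nonneg_right hprod (abs_nonneg _))

theorem concl_of_card (M : ℕ) (hM : 1 < M) (A : Matrix (Fin (2 * M - 1)) (Fin M) ℝ)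
    (S : Finset (Fin (2 * M - 1))) (hS : M ≤ S.card) :
    Module.finrank ℝ (Submodule.span ℝ
      (Set.range (fun i : {i : Fin (2 * M - 1) // i ∉ S} => A i.1))) < M := by
  classical
  have h1 := finrank_range_le_card (R := ℝ) (fun i : {i : Fin (2 * M - 1) // i ∉ S} => A i.1)
  have h2 : Fintype.card {i : Fin (2 * M - 1) // i ∉ S} = (2 * M - 1) - S.card := by
    rw [Fintype.card_subtype_compl]
    simp
  rw [Set.finrank, h2] at h1
  omega

theorem main (M : ℕ) (hM : 1 < M) (A : Matrix (Fin (2 * M - 1)) (Fin M) ℝ)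
    (R : Finset (Fin (2 * M - 1))) (d u : ℕ) (m : ℕ) (hA : OneSignModulo A R d u)
    (hR : R.card + d = M) (hm1 : d + 2 * m + 4 ≤ u) (hm2 : 2 * m ≤ d) (hm0 : 0 < m) :
    ∃ S : Finset (Fin (2 * M - 1)), M ≤ S.card ∧
      ∃ x : Fin M → ℝ, ∑ j, x j ^ 2 = 1 ∧ ∃ k : Fin (2 * M - 1),
        ∑ i ∈ S, (∑ j, A i j * x j) ^ 2 ≤ (∑ j, A k j ^ 2) * (1 / 2) ^ m := by
  classical
  -- reduction to a nonzero vector
  have red : ∀ (S : Finset (Fin (2 * M - 1))) (y : Fin M → ℝ) (l : Fin (2 * M - 1)), y ≠ 0 →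
      (∑ i ∈ S, (∑ j, A i j * y j) ^ 2) * 2 ^ m ≤ (∑ j, A l j * y j) ^ 2 →
      ∃ x : Fin M → ℝ, ∑ j, x j ^ 2 = 1 ∧ ∃ k : Fin (2 * M - 1),
        ∑ i ∈ S, (∑ j, A i j * x j) ^ 2 ≤ (∑ j, A k j ^ 2) * (1 / 2) ^ m := by
    intro S y l hy hle
    have hpos : 0 < ∑ j, y j ^ 2 := by
      obtain ⟨j, hj⟩ := Function.ne_iff.mp hy
      have : 0 < y j ^ 2 := sq_pos_of_ne_zero hj
      exact lt_of_lt_of_le this (Finset.single_le_sum (f := fun j => y j ^ 2)
        (fun _ _ => sq_nonneg _) (Finset.mem_univ j))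
    set D : ℝ := ∑ j, y j ^ 2 with hD
    set r : ℝ := Real.sqrt D with hr
    have hr0 : 0 < r := Real.sqrt_pos.mpr hpos
    have hr2 : r ^ 2 = D := Real.sq_sqrt hpos.le
    refine ⟨fun j => y j / r, ?_, l, ?_⟩
    · simp only [div_pow, hr2]
      rw [← Finset.sum_div, ← hD, div_self hpos.ne']
    · have e1 : ∀ i, (∑ j, A i j * (y j / r)) ^ 2 = (∑ j, A i j * y j) ^ 2 / D := by
        intro i
        have : ∑ j, A i j * (y j / r) = (∑ j, A i j * y j) / r := by
          rw [Finset.sum_div]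
          apply Finset.sum_congr rfl
          intro j _; ring
        rw [this, div_pow, hr2]
      simp only [e1]
      rw [← Finset.sum_div, div_le_iff₀ hpos]
      have hcs : (∑ j, A l j * y j) ^ 2 ≤ (∑ j, A l j ^ 2) * ∑ j, y j ^ 2 :=
        Finset.sum_mul_sq_le_sq_mul_sq _ _ _
      have h2m : (0 : ℝ) < 2 ^ m := by positivity
      rw [one_div, inv_pow]
      have : (∑ i ∈ S, (∑ j, A i j * y j) ^ 2) ≤ ((∑ j, A l j ^ 2) * D) / 2 ^ m := by
        rw [le_div_iff₀ h2m]; exact hle.trans hcs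
      calc _ ≤ ((∑ j, A l j ^ 2) * D) / 2 ^ m := this
        _ = _ := by ring
  obtain ⟨Q, e, s, c, hQ, hQR, hinj, heR, hs, hpos⟩ := hA
  set a : ℕ → Fin d → ℝ :=
    fun k j => if h : k < u then s ⟨k, h⟩ * (A * Q) (e ⟨k, h⟩) j else 0 with ha
  have hSS : SameSign a u c := by
    intro f hf hfu
    have h1 := hpos (fun i => ⟨f i, hfu i⟩) (fun p q hpq => by
      simpa using hf hpq)
    have e1 : (Matrix.of fun i j => a (f i) j) =
        Matrix.of fun i j => s ⟨f i, hfu i⟩ * (A * Q) (e ⟨f i, hfu i⟩) j := by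
      ext i j
      simp only [ha, Matrix.of_apply, hfu i, dif_pos]
    rw [e1]; exact h1
  have hAQ : ∀ (i : Fin (2 * M - 1)) (y : Fin d → ℝ),
      ∑ j, A i j * (Q.mulVec y) j = ∑ j, (A * Q) i j * y j := by
    intro i y
    have := congrFun (Matrix.mulVec_mulVec y A Q) i
    simpa [Matrix.mulVec, dotProduct] using this
  have hip : ∀ (k : Fin u) (y : Fin d → ℝ),
      ip a k y ^ 2 = (∑ j, A (e k) j * (Q.mulVec y) j) ^ 2 := by
    intro k y
    have : ip a k y = s k * ∑ j, (A * Q) (e k) j * y j := by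
      simp only [ip, ha, k.isLt, dif_pos, Fin.eta, Finset.mul_sum]
      exact Finset.sum_congr rfl fun _ _ => by ring
    rw [this, mul_pow, hAQ]
    rcases hs k with h1 | h1 <;> rw [h1] <;> ring
  obtain ⟨T, hTc, hTu, k, hk, l, hl, hkT, y, hy, hyT, hle⟩ :=
    core hSS (by omega) m hm0 hm1 hm2
  have hWu : ∀ n ∈ insert k T, n < u := by
    intro n hn
    rw [Finset.mem_insert] at hn
    rcases hn with rfl | hn
    · exact hk
    · exact hTu n hn
  set W : Finset (Fin u) := (insert k T).attachFin hWu with hW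
  have hWc : W.card = d := by
    rw [hW, Finset.card_attachFin, Finset.card_insert_of_notMem hkT, hTc]; omega
  have hdisj : Disjoint R (W.image e) := by
    rw [Finset.disjoint_left]
    intro i hi hi'
    rw [Finset.mem_image] at hi'
    obtain ⟨w, _, rfl⟩ := hi'
    exact heR w hi
  refine ⟨R ∪ W.image e, ?_, ?_⟩
  · rw [Finset.card_union_of_disjoint hdisj, Finset.card_image_of_injective _ hinj, hWc]
    omega
  · apply red _ (Q.mulVec y) (e ⟨l, hl⟩) (fun h0 => hy (hQ y h0))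
    rw [Finset.sum_union hdisj]
    have hR0 : ∑ i ∈ R, (∑ j, A i j * (Q.mulVec y) j) ^ 2 = 0 := by
      apply Finset.sum_eq_zero
      intro i hi
      rw [hAQ]
      have : ∑ j, (A * Q) i j * y j = 0 :=
        Finset.sum_eq_zero fun j _ => by rw [hQR i hi j, zero_mul]
      rw [this]; ring
    rw [hR0, zero_add, Finset.sum_image (fun p _ q _ hpq => hinj hpq)]
    have hsum : ∑ i ∈ W, (∑ j, A (e i) j * (Q.mulVec y) j) ^ 2 = ip a k y ^ 2 := by
      rw [Finset.sum_eq_single ⟨k, hk⟩]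
      · rw [← hip ⟨k, hk⟩ y]
      · intro i hi hik
        rw [← hip i y]
        rw [hW, Finset.mem_attachFin, Finset.mem_insert] at hi
        rcases hi with hi | hi
        · exact absurd (Fin.ext hi) hik
        · rw [hyT _ hi]; ring
      · intro hn
        exfalso
        apply hn
        rw [hW, Finset.mem_attachFin]
        exact Finset.mem_insert_self _ _
    rw [hsum, ← hip ⟨l, hl⟩ y]
    exact hle

/-- The Balan–Wang bound holds as soon as, modulo the span of `M - d` of the rows, some `u`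
of the other rows have all their `d × d` minors of one sign. -/
theorem result :
    ∀ M : ℕ, 1 < M → ∀ A : Matrix (Fin (2 * M - 1)) (Fin M) ℝ,
      ∀ (R : Finset (Fin (2 * M - 1))) (d u m : ℕ), R.card + d = M → OneSignModulo A R d u →
        d + 2 * m + 4 ≤ u → 2 * m ≤ d → 0 < m →
        ∃ S : Finset (Fin (2 * M - 1)),
          Module.finrank ℝ
              (Submodule.span ℝ
                (Set.range (fun i : {i : Fin (2 * M - 1) // i ∉ S} => A i.1))) < M ∧
          ∃ x : Fin M → ℝ, ∑ j, x j ^ 2 = 1 ∧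
            ∃ k : Fin (2 * M - 1),
              Real.sqrt (∑ i ∈ S, (∑ j, A i j * x j) ^ 2)
                ≤ Real.sqrt (∑ j, A k j ^ 2) * Real.sqrt ((1 / 2 : ℝ) ^ m) := by
  intro M hM A R d u m hR hA h1 h2 h0
  obtain ⟨S, hS, x, hx, k, hk⟩ := main M hM A R d u m hA hR h1 h2 h0
  refine ⟨S, concl_of_card M hM A S hS, x, hx, k, ?_⟩
  have h1 := Real.sqrt_le_sqrt hk
  rwa [Real.sqrt_mul (Finset.sum_nonneg fun _ _ => sq_nonneg _)] at h1

end Pool.Agent.Results.MP_686ee2_an.LocalPositive
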