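import Mathlib

set_option autoImplicit false

namespace Pool.Agent.Results.MP_686ee2_an.MomentTrig

open Finset

/-- Euclidean norm of a real vector. -/
noncomputable def nrm {n : ℕ} (v : Fin n → ℝ) : ℝ := Real.sqrt (∑ j, v j ^ 2)

/-- The rows lie, up to scalar factors, on the moment curve: `Φ_i = w_i (1, t_i, …, t_i^(M-1))`. -/
def IsMoment {N M : ℕ} (Φ : Matrix (Fin N) (Fin M) ℝ) : Prop :=
  ∃ w t : Fin N → ℝ, ∀ i j, Φ i j = w i * t i ^ (j : ℕ)

/-- The rows lie, up to scalar factors, on the trigonometric curve: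
`Φ_i = w_i (1, sin θ_i, cos θ_i, sin 2θ_i, cos 2θ_i, …)` (the first `M` entries). -/
def IsTrig {N M : ℕ} (Φ : Matrix (Fin N) (Fin M) ℝ) : Prop :=
  ∃ w θ : Fin N → ℝ, ∀ i j, Φ i j = w i *
    (if (j : ℕ) % 2 = 0 then Real.cos ((((j : ℕ) / 2 : ℕ) : ℝ) * θ i)
      else Real.sin (((((j : ℕ) + 1) / 2 : ℕ) : ℝ) * θ i))

theorem nrm_nonneg {n : ℕ} (v : Fin n → ℝ) : 0 ≤ nrm v := Real.sqrt_nonneg _

theorem nrm_sq {n : ℕ} (v : Fin n → ℝ) : nrm v ^ 2 = ∑ j, v j ^ 2 :=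
  Real.sq_sqrt (Finset.sum_nonneg fun _ _ => sq_nonneg _)

theorem abs_le_nrm {n : ℕ} (v : Fin n → ℝ) (j : Fin n) : |v j| ≤ nrm v := by
  rw [nrm, ← Real.sqrt_sq_eq_abs]
  exact Real.sqrt_le_sqrt (Finset.single_le_sum (f := fun j => v j ^ 2)
    (fun _ _ => sq_nonneg _) (Finset.mem_univ j))

theorem sum_abs_le {n : ℕ} (v : Fin n → ℝ) : ∑ j, |v j| ≤ Real.sqrt n * nrm v := by
  have h := sq_sum_le_card_mul_sum_sq (s := (Finset.univ : Finset (Fin n))) (f := fun j => |v j|)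
  simp only [Finset.card_univ, Fintype.card_fin, sq_abs] at h
  rw [nrm, ← Real.sqrt_mul (Nat.cast_nonneg n)]
  exact Real.le_sqrt_of_sq_le h

theorem numeric (M : ℕ) (hM : 1 < M) :
    Real.sqrt 2 * M / 2 ^ ((M - 1) / 2) ≤ 20 * (4 / 5 : ℝ) ^ M := by
  set m := (M - 1) / 2 with hm
  have h1 : M ≤ 2 * m + 2 := by omega
  have h2 : (M : ℝ) ≤ 2 * (m + 1) := by
    have : (M : ℝ) ≤ ((2 * m + 2 : ℕ) : ℝ) := by exact_mod_cast h1
    push_cast at this; linarith
  have h3 : ((m : ℝ) + 1) ≤ 4 * (5 / 4) ^ m := by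
    have := one_add_mul_le_pow (a := (1 / 4 : ℝ)) (by norm_num) m
    have e : (1 + 1 / 4 : ℝ) = 5 / 4 := by norm_num
    rw [e] at this
    have hm0 : (0 : ℝ) ≤ m := Nat.cast_nonneg m
    linarith
  have h4 : (5 / 8 : ℝ) ^ m ≤ (25 / 16) * (4 / 5 : ℝ) ^ M := by
    have a1 : (5 / 8 : ℝ) ^ m ≤ ((4 / 5 : ℝ) ^ 2) ^ m :=
      pow_le_pow_left₀ (by norm_num) (by norm_num) m
    have a2 : ((4 / 5 : ℝ) ^ 2) ^ m = (25 / 16) * (4 / 5 : ℝ) ^ (2 * m + 2) := by
      rw [← pow_mul, pow_add]; ring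
    have a3 : (4 / 5 : ℝ) ^ (2 * m + 2) ≤ (4 / 5 : ℝ) ^ M :=
      pow_le_pow_of_le_one (by norm_num) (by norm_num) h1
    rw [a2] at a1
    linarith
  have h5 : Real.sqrt 2 ≤ 3 / 2 := by
    rw [Real.sqrt_le_left (by norm_num)]; norm_num
  have h6 : (M : ℝ) / 2 ^ m ≤ 8 * (5 / 8 : ℝ) ^ m := by
    rw [div_le_iff₀ (by positivity)]
    have : 8 * (5 / 8 : ℝ) ^ m * 2 ^ m = 8 * (5 / 4) ^ m := by
      rw [mul_assoc, ← mul_pow]; norm_num
    rw [this]; linarith
  have h7 : (0 : ℝ) ≤ (M : ℝ) / 2 ^ m := by positivity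
  calc Real.sqrt 2 * M / 2 ^ m = Real.sqrt 2 * (M / 2 ^ m) := by ring
    _ ≤ 3 / 2 * (8 * ((25 / 16) * (4 / 5 : ℝ) ^ M)) := by
        apply mul_le_mul h5 _ h7 (by norm_num)
        linarith
    _ ≤ 20 * (4 / 5 : ℝ) ^ M := by
        have : (0 : ℝ) < (4 / 5 : ℝ) ^ M := by positivity
        linarith

/-- the common final step -/
theorem core (M : ℕ) (hM : 1 < M) (Φ A : Matrix (Fin (2 * M - 1)) (Fin M) ℝ)
    (G H : Matrix (Fin M) (Fin M) ℝ) (g h : ℝ) (hA : A = Φ * G) (hGH : G * H = 1)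
    (hg : ∀ x : Fin M → ℝ, nrm (G.mulVec x) ≤ g * nrm x)
    (hh : ∀ y : Fin M → ℝ, nrm (Matrix.vecMul y H) ≤ h * nrm y)
    (S : Finset (Fin (2 * M - 1))) (p : Fin M → ℝ) (ε : Fin M → ℂ) (hε : ∀ j, ‖ε j‖ ≤ 1)
    (hp : (2 : ℝ) ^ ((M - 1) / 2) ≤ ‖∑ j, (p j : ℂ) * ε j‖) (k : Fin (2 * M - 1))
    (hc : ∀ i ∈ S, |∑ j, Φ i j * p j| ≤ nrm (Φ k)) :
    ∃ x : Fin M → ℝ, ∑ j, x j ^ 2 = 1 ∧
      Real.sqrt (∑ i ∈ S, (∑ j, A i j * x j) ^ 2) ≤ 20 * (g * h) * nrm (A k) * (4 / 5 : ℝ) ^ M := by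
  have hR : (0 : ℝ) < 2 ^ ((M - 1) / 2) := by positivity
  -- norm of p
  have hpn : (2 : ℝ) ^ ((M - 1) / 2) ≤ Real.sqrt M * nrm p := by
    refine hp.trans ((norm_sum_le _ _).trans (le_trans ?_ (sum_abs_le p)))
    apply Finset.sum_le_sum
    intro j _
    rw [norm_mul, Complex.norm_real, Real.norm_eq_abs]
    exact mul_le_of_le_one_right (abs_nonneg _) (hε j)
  set z : Fin M → ℝ := H.mulVec p with hz
  have hGz : G.mulVec z = p := by
    rw [hz, Matrix.mulVec_mulVec, hGH, Matrix.one_mulVec]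
  have hzn : nrm p ≤ g * nrm z := by
    have := hg z
    rwa [hGz] at this
  have hsM : 0 < Real.sqrt M := Real.sqrt_pos.2 (by exact_mod_cast (by omega : 0 < M))
  have hpp : 0 < nrm p := by
    by_contra hcon
    have : nrm p = 0 := le_antisymm (not_lt.1 hcon) (nrm_nonneg p)
    rw [this, mul_zero] at hpn
    linarith
  have hgz : 0 < g * nrm z := lt_of_lt_of_le hpp hzn
  have hzp : 0 < nrm z := by
    rcases (nrm_nonneg z).lt_or_eq with h | h
    · exact h
    · rw [← h, mul_zero] at hgz; exact absurd hgz (lt_irrefl _)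
  have hgp : 0 < g := by
    by_contra hcon
    have : g * nrm z ≤ 0 := mul_nonpos_of_nonpos_of_nonneg (not_lt.1 hcon) (nrm_nonneg z)
    linarith
  have hAz : ∀ i, ∑ j, A i j * z j = ∑ j, Φ i j * p j := by
    intro i
    have : A.mulVec z i = Φ.mulVec p i := by
      rw [hA, ← Matrix.mulVec_mulVec, hGz]
    simpa [Matrix.mulVec, dotProduct] using this
  have hrow : nrm (Φ k) ≤ h * nrm (A k) := by
    have h1 := hh (A k)
    have h2 : Matrix.vecMul (A k) H = Φ k := by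
      have h3 : A * H = Φ := by rw [hA, Matrix.mul_assoc, hGH, Matrix.mul_one]
      funext j
      have := congrFun (congrFun h3 k) j
      simpa [Matrix.mul_apply, Matrix.vecMul, dotProduct] using this
    rwa [h2] at h1
  refine ⟨fun j => z j / nrm z, ?_, ?_⟩
  · simp only [div_pow]
    rw [← Finset.sum_div, nrm_sq]
    apply div_self
    rw [← nrm_sq]; positivity
  · have hsum : ∀ i, ∑ j, A i j * (z j / nrm z) = (∑ j, Φ i j * p j) / nrm z := by
      intro i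
      rw [← hAz i, Finset.sum_div]
      exact Finset.sum_congr rfl fun j _ => by ring
    have hb : ∑ i ∈ S, (∑ j, A i j * (z j / nrm z)) ^ 2 ≤ (2 * M) * (nrm (Φ k) / nrm z) ^ 2 := by
      calc ∑ i ∈ S, (∑ j, A i j * (z j / nrm z)) ^ 2 ≤ ∑ i ∈ S, (nrm (Φ k) / nrm z) ^ 2 := by
            apply Finset.sum_le_sum
            intro i hi
            rw [hsum i, ← sq_abs, abs_div, abs_of_pos hzp]
            apply pow_le_pow_left₀ (by positivity)
            exact div_le_div_of_nonneg_right (hc i hi) hzp.le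
        _ = (S.card : ℝ) * (nrm (Φ k) / nrm z) ^ 2 := by rw [Finset.sum_const, nsmul_eq_mul]
        _ ≤ (2 * M) * (nrm (Φ k) / nrm z) ^ 2 := by
            apply mul_le_mul_of_nonneg_right _ (sq_nonneg _)
            have h1 : S.card ≤ 2 * M - 1 := by simpa using Finset.card_le_univ S
            have h2 : S.card ≤ 2 * M := by omega
            exact_mod_cast h2
    have hb2 : Real.sqrt (∑ i ∈ S, (∑ j, A i j * (z j / nrm z)) ^ 2) ≤
        Real.sqrt (2 * M) * (nrm (Φ k) / nrm z) := by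
      refine (Real.sqrt_le_sqrt hb).trans ?_
      rw [Real.sqrt_mul (by positivity), Real.sqrt_sq (div_nonneg (nrm_nonneg _) (nrm_nonneg _))]
    refine hb2.trans ?_
    -- 1 / nrm z ≤ g √M / 2^m
    have h8 : 1 / nrm z ≤ g * Real.sqrt M / 2 ^ ((M - 1) / 2) := by
      rw [div_le_div_iff₀ hzp hR]
      calc 1 * (2 : ℝ) ^ ((M - 1) / 2) ≤ Real.sqrt M * nrm p := by rw [one_mul]; exact hpn
        _ ≤ Real.sqrt M * (g * nrm z) := mul_le_mul_of_nonneg_left hzn hsM.le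
        _ = g * Real.sqrt M * nrm z := by ring
    have hs : Real.sqrt (2 * M) * Real.sqrt M = Real.sqrt 2 * M := by
      rw [Real.sqrt_mul (by norm_num), mul_assoc, Real.mul_self_sqrt (Nat.cast_nonneg M)]
    have hnum := numeric M hM
    have hk0 : 0 ≤ nrm (Φ k) := nrm_nonneg _
    calc Real.sqrt (2 * M) * (nrm (Φ k) / nrm z)
        = Real.sqrt (2 * M) * nrm (Φ k) * (1 / nrm z) := by ring
      _ ≤ Real.sqrt (2 * M) * nrm (Φ k) * (g * Real.sqrt M / 2 ^ ((M - 1) / 2)) :=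
          mul_le_mul_of_nonneg_left h8 (by positivity)
      _ = g * nrm (Φ k) * (Real.sqrt (2 * M) * Real.sqrt M / 2 ^ ((M - 1) / 2)) := by ring
      _ = g * nrm (Φ k) * (Real.sqrt 2 * M / 2 ^ ((M - 1) / 2)) := by rw [hs]
      _ ≤ g * nrm (Φ k) * (20 * (4 / 5 : ℝ) ^ M) :=
          mul_le_mul_of_nonneg_left hnum (by positivity)
      _ ≤ g * (h * nrm (A k)) * (20 * (4 / 5 : ℝ) ^ M) := by
          apply mul_le_mul_of_nonneg_right _ (by positivity)
          exact mul_le_mul_of_nonneg_left hrow hgp.le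
      _ = 20 * (g * h) * nrm (A k) * (4 / 5 : ℝ) ^ M := by ring

theorem concl_of_card (M : ℕ) (hM : 1 < M) (A : Matrix (Fin (2 * M - 1)) (Fin M) ℝ)
    (S : Finset (Fin (2 * M - 1))) (hS : M ≤ S.card) :
    Module.finrank ℝ (Submodule.span ℝ
      (Set.range (fun i : {i : Fin (2 * M - 1) // i ∉ S} => A i.1))) < M := by
  classical
  have h1 := finrank_range_le_card (R := ℝ) (fun i : {i : Fin (2 * M - 1) // i ∉ S} => A i.1)
  have h2 : Fintype.card {i : Fin (2 * M - 1) // i ∉ S} = (2 * M - 1) - S.card := by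
    rw [Fintype.card_subtype_compl]
    simp
  rw [Set.finrank, h2] at h1
  omega

open Polynomial in
theorem poly_facts (M : ℕ) (hM : 1 < M) :
    ∃ p : Fin M → ℝ, (∀ t : ℝ, ∑ j : Fin M, t ^ (j : ℕ) * p j = (1 - t ^ 2) ^ ((M - 1) / 2)) ∧
      ∑ j : Fin M, (p j : ℂ) * Complex.I ^ (j : ℕ) = 2 ^ ((M - 1) / 2) := by
  set m := (M - 1) / 2 with hm
  set q : ℝ[X] := (1 - X ^ 2) ^ m with hq
  have hdeg : q.natDegree < M := by
    have h1 : (1 - X ^ 2 : ℝ[X]).natDegree ≤ 2 := by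
      refine (natDegree_sub_le _ _).trans ?_
      simp
    have h2 : q.natDegree ≤ m * 2 := by
      refine natDegree_pow_le.trans ?_
      exact Nat.mul_le_mul_left m h1
    omega
  refine ⟨fun j => q.coeff j, ?_, ?_⟩
  · intro t
    have := q.eval_eq_sum_range' hdeg t
    rw [← Fin.sum_univ_eq_sum_range (fun i => q.coeff i * t ^ i) M] at this
    calc ∑ j : Fin M, t ^ (j : ℕ) * q.coeff j = ∑ j : Fin M, q.coeff j * t ^ (j : ℕ) :=
          Finset.sum_congr rfl fun j _ => by ring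
      _ = q.eval t := this.symm
      _ = (1 - t ^ 2) ^ m := by rw [hq]; simp
  · have h3 : aeval Complex.I q = ∑ j : Fin M, (q.coeff j : ℂ) * Complex.I ^ (j : ℕ) := by
      rw [aeval_eq_sum_range' hdeg, ← Fin.sum_univ_eq_sum_range
        (fun i => q.coeff i • Complex.I ^ i) M]
      exact Finset.sum_congr rfl fun j _ => by rw [Complex.real_smul]
    rw [← h3, hq]
    simp only [map_pow, map_sub, map_one, aeval_X, Complex.I_sq]
    norm_num

theorem exists_row {N M : ℕ} (Φ : Matrix (Fin N) (Fin M) ℝ) (hN : 0 < N) :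
    ∃ k, ∀ i, nrm (Φ i) ≤ nrm (Φ k) := by
  have : Nonempty (Fin N) := ⟨⟨0, hN⟩⟩
  obtain ⟨k, _, hk⟩ := Finset.exists_max_image Finset.univ (fun i => nrm (Φ i)) Finset.univ_nonempty
  exact ⟨k, fun i => hk i (Finset.mem_univ i)⟩

theorem moment_case (M : ℕ) (hM : 1 < M) (Φ A : Matrix (Fin (2 * M - 1)) (Fin M) ℝ)
    (G H : Matrix (Fin M) (Fin M) ℝ) (g h : ℝ) (hA : A = Φ * G) (hGH : G * H = 1)
    (hg : ∀ x : Fin M → ℝ, nrm (G.mulVec x) ≤ g * nrm x)
    (hh : ∀ y : Fin M → ℝ, nrm (Matrix.vecMul y H) ≤ h * nrm y) (hΦ : IsMoment Φ) :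
    ∃ S : Finset (Fin (2 * M - 1)), M ≤ S.card ∧
      ∃ x : Fin M → ℝ, ∑ j, x j ^ 2 = 1 ∧ ∃ k,
      Real.sqrt (∑ i ∈ S, (∑ j, A i j * x j) ^ 2) ≤ 20 * (g * h) * nrm (A k) * (4 / 5 : ℝ) ^ M := by
  classical
  obtain ⟨w, t, hΦ⟩ := hΦ
  obtain ⟨p, hp1, hp2⟩ := poly_facts M hM
  obtain ⟨k, hk⟩ := exists_row Φ (by omega)
  have hM0 : 0 < M := by omega
  by_cases hcard : M ≤ (Finset.univ.filter (fun i => |t i| ≤ 1)).card
  · obtain ⟨x, hx1, hx2⟩ := core M hM Φ A G H g h hA hGH hg hh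
      (Finset.univ.filter (fun i => |t i| ≤ 1)) p (fun j => Complex.I ^ (j : ℕ))
      (fun j => by simp) (by rw [hp2]; simp) k (by
        intro i hi
        rw [Finset.mem_filter] at hi
        refine le_trans ?_ (hk i)
        have h1 : ∑ j, Φ i j * p j = w i * (1 - t i ^ 2) ^ ((M - 1) / 2) := by
          rw [← hp1 (t i), Finset.mul_sum]
          exact Finset.sum_congr rfl fun j _ => by rw [hΦ]; ring
        rw [h1, abs_mul, abs_pow]
        have h2 : |w i| ≤ nrm (Φ i) := by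
          have := abs_le_nrm (Φ i) ⟨0, hM0⟩
          rw [hΦ] at this
          simpa using this
        have h3 : |1 - t i ^ 2| ≤ 1 := by
          have h4 : t i ^ 2 ≤ 1 := by
            rw [← sq_abs]; exact pow_le_one₀ (abs_nonneg _) hi.2
          rw [abs_le]; constructor <;> nlinarith [sq_nonneg (t i)]
        calc |w i| * |1 - t i ^ 2| ^ ((M - 1) / 2) ≤ |w i| * 1 :=
              mul_le_mul_of_nonneg_left (pow_le_one₀ (abs_nonneg _) h3) (abs_nonneg _)
          _ ≤ nrm (Φ i) := by rw [mul_one]; exact h2)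
    exact ⟨_, hcard, x, hx1, k, hx2⟩
  · have hcard2 : M ≤ (Finset.univ.filter (fun i => ¬ |t i| ≤ 1)).card := by
      have h1 := Finset.card_filter_add_card_filter_not (s := (Finset.univ : Finset (Fin (2 * M - 1))))
        (fun i => |t i| ≤ 1)
      rw [Finset.card_univ, Fintype.card_fin] at h1
      omega
    obtain ⟨x, hx1, hx2⟩ := core M hM Φ A G H g h hA hGH hg hh
      (Finset.univ.filter (fun i => ¬ |t i| ≤ 1)) (fun j => p (Fin.rev j))
      (fun j => Complex.I ^ (Fin.rev j : ℕ))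
      (fun j => by simp) (by
        have : ∑ j : Fin M, (p (Fin.rev j) : ℂ) * Complex.I ^ (Fin.rev j : ℕ) =
            ∑ j : Fin M, (p j : ℂ) * Complex.I ^ (j : ℕ) :=
          Equiv.sum_comp Fin.revPerm (fun j : Fin M => (p j : ℂ) * Complex.I ^ (j : ℕ))
        rw [this, hp2]; simp) k (by
        intro i hi
        rw [Finset.mem_filter] at hi
        refine le_trans ?_ (hk i)
        have ht1 : 1 < |t i| := not_le.1 hi.2
        have ht0 : t i ≠ 0 := by
          intro h0; rw [h0, abs_zero] at ht1; linarith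
        have h1 : ∑ j, Φ i j * p (Fin.rev j) =
            w i * t i ^ (M - 1) * (1 - (t i)⁻¹ ^ 2) ^ ((M - 1) / 2) := by
          rw [← hp1 (t i)⁻¹, Finset.mul_sum]
          rw [← Equiv.sum_comp Fin.revPerm (fun j : Fin M => w i * t i ^ (M - 1) *
            ((t i)⁻¹ ^ (j : ℕ) * p j))]
          refine Finset.sum_congr rfl fun j _ => ?_
          rw [hΦ]
          simp only [Fin.revPerm_apply]
          have h5 : t i ^ (M - 1) * (t i)⁻¹ ^ ((Fin.rev j : Fin M) : ℕ) = t i ^ (j : ℕ) := by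
            have h6 : M - 1 = (j : ℕ) + ((Fin.rev j : Fin M) : ℕ) := by
              rw [Fin.val_rev]; have := j.2; omega
            rw [h6, pow_add, mul_assoc, ← mul_pow, mul_inv_cancel₀ ht0, one_pow, mul_one]
          calc w i * t i ^ (j : ℕ) * p (Fin.rev j)
              = w i * (t i ^ (M - 1) * (t i)⁻¹ ^ ((Fin.rev j : Fin M) : ℕ)) * p (Fin.rev j) := by
                rw [h5]
            _ = _ := by ring
        rw [h1, abs_mul, abs_pow]
        have h2 : |w i * t i ^ (M - 1)| ≤ nrm (Φ i) := by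
          have := abs_le_nrm (Φ i) ⟨M - 1, by omega⟩
          rw [hΦ] at this
          simpa using this
        have h3 : |1 - (t i)⁻¹ ^ 2| ≤ 1 := by
          have h4 : (t i)⁻¹ ^ 2 ≤ 1 := by
            rw [← sq_abs, abs_inv]
            exact pow_le_one₀ (by positivity) (inv_le_one_of_one_le₀ ht1.le)
          rw [abs_le]; constructor <;> nlinarith [sq_nonneg ((t i)⁻¹)]
        calc |w i * t i ^ (M - 1)| * |1 - (t i)⁻¹ ^ 2| ^ ((M - 1) / 2)
            ≤ |w i * t i ^ (M - 1)| * 1 :=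
              mul_le_mul_of_nonneg_left (pow_le_one₀ (abs_nonneg _) h3) (abs_nonneg _)
          _ ≤ nrm (Φ i) := by rw [mul_one]; exact h2)
    exact ⟨_, hcard2, x, hx1, k, hx2⟩

/-- the trigonometric basis `1, sin θ, cos θ, sin 2θ, cos 2θ, …` -/
noncomputable def trg (j : ℕ) (θ : ℝ) : ℝ :=
  if j % 2 = 0 then Real.cos (((j / 2 : ℕ) : ℝ) * θ) else Real.sin ((((j + 1) / 2 : ℕ) : ℝ) * θ)

theorem abs_trg_le (j : ℕ) (θ : ℝ) : |trg j θ| ≤ 1 := by
  unfold trg
  split_ifs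
  · exact Real.abs_cos_le_one _
  · exact Real.abs_sin_le_one _

/-- cosine polynomials of degree at most `l` -/
def V (l : ℕ) : Submodule ℝ (ℝ → ℝ) :=
  Submodule.span ℝ {f | ∃ k ≤ l, f = fun θ : ℝ => Real.cos ((k : ℝ) * θ)}

theorem V_mono {l l' : ℕ} (h : l ≤ l') : V l ≤ V l' := by
  apply Submodule.span_mono
  rintro f ⟨k, hk, rfl⟩
  exact ⟨k, hk.trans h, rfl⟩

theorem cos_mem {k l : ℕ} (h : k ≤ l) : (fun θ : ℝ => Real.cos ((k : ℝ) * θ)) ∈ V l :=
  Submodule.subset_span ⟨k, h, rfl⟩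

theorem cos_mul_mem (l : ℕ) (f : ℝ → ℝ) (hf : f ∈ V l) :
    (fun θ => Real.cos θ * f θ) ∈ V (l + 1) := by
  induction hf using Submodule.span_induction with
  | mem f hf =>
    obtain ⟨k, hk, rfl⟩ := hf
    rcases Nat.eq_zero_or_pos k with h0 | h0
    · subst h0
      have : (fun θ : ℝ => Real.cos θ * Real.cos (((0 : ℕ) : ℝ) * θ)) =
          fun θ : ℝ => Real.cos (((1 : ℕ) : ℝ) * θ) := by
        funext θ; simp
      rw [this]
      exact cos_mem (by omega)
    · obtain ⟨k', rfl⟩ : ∃ k', k = k' + 1 := ⟨k - 1, by omega⟩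
      have : (fun θ : ℝ => Real.cos θ * Real.cos (((k' + 1 : ℕ) : ℝ) * θ)) =
          (1 / 2 : ℝ) • (fun θ : ℝ => Real.cos (((k' + 2 : ℕ) : ℝ) * θ)) +
          (1 / 2 : ℝ) • (fun θ : ℝ => Real.cos ((k' : ℝ) * θ)) := by
        funext θ
        simp only [Pi.add_apply, Pi.smul_apply, smul_eq_mul]
        have e1 : ((k' + 2 : ℕ) : ℝ) * θ = ((k' + 1 : ℕ) : ℝ) * θ + θ := by push_cast; ring
        have e2 : (k' : ℝ) * θ = ((k' + 1 : ℕ) : ℝ) * θ - θ := by push_cast; ring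
        rw [e1, e2, Real.cos_add, Real.cos_sub]
        ring
      rw [this]
      exact Submodule.add_mem _ (Submodule.smul_mem _ _ (cos_mem (by omega)))
        (Submodule.smul_mem _ _ (cos_mem (by omega)))
  | zero =>
    have : (fun θ : ℝ => Real.cos θ * (0 : ℝ → ℝ) θ) = 0 := by funext θ; simp
    rw [this]; exact Submodule.zero_mem _
  | add f g _ _ h1 h2 =>
    have : (fun θ : ℝ => Real.cos θ * (f + g) θ) =
        (fun θ => Real.cos θ * f θ) + fun θ => Real.cos θ * g θ := by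
      funext θ; simp only [Pi.add_apply]; ring
    rw [this]; exact Submodule.add_mem _ h1 h2
  | smul c f _ h1 =>
    have : (fun θ : ℝ => Real.cos θ * (c • f) θ) = c • (fun θ => Real.cos θ * f θ) := by
      funext θ; simp only [Pi.smul_apply, smul_eq_mul]; ring
    rw [this]; exact Submodule.smul_mem _ _ h1

theorem pow_mem_V (a : ℝ) (m : ℕ) : (fun θ : ℝ => (1 + a * Real.cos θ) ^ m) ∈ V m := by
  induction m with
  | zero =>
    have : (fun θ : ℝ => (1 + a * Real.cos θ) ^ 0) =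
        fun θ : ℝ => Real.cos (((0 : ℕ) : ℝ) * θ) := by
      funext θ; simp
    rw [this]; exact cos_mem le_rfl
  | succ m ih =>
    have : (fun θ : ℝ => (1 + a * Real.cos θ) ^ (m + 1)) =
        (fun θ : ℝ => (1 + a * Real.cos θ) ^ m) +
          a • (fun θ : ℝ => Real.cos θ * (1 + a * Real.cos θ) ^ m) := by
      funext θ
      simp only [Pi.add_apply, Pi.smul_apply, smul_eq_mul]
      ring
    rw [this]
    exact Submodule.add_mem _ (V_mono (by omega) ih)
      (Submodule.smul_mem _ _ (cos_mul_mem m _ ih))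

theorem trig_coeff (M : ℕ) (hM : 1 < M) (a : ℝ) :
    ∃ p : Fin M → ℝ, ∀ θ : ℝ, ∑ j : Fin M, trg (j : ℕ) θ * p j =
      (1 + a * Real.cos θ) ^ ((M - 1) / 2) := by
  have h1 := pow_mem_V a ((M - 1) / 2)
  have h2 : V ((M - 1) / 2) ≤ Submodule.span ℝ (Set.range (fun j : Fin M => trg (j : ℕ))) := by
    apply Submodule.span_mono
    rintro f ⟨k, hk, rfl⟩
    refine ⟨⟨2 * k, by omega⟩, ?_⟩
    funext θ
    have e1 : 2 * k % 2 = 0 := by omega
    have e2 : 2 * k / 2 = k := by omega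
    simp only [trg]
    rw [if_pos e1, e2]
  obtain ⟨c, hc⟩ := (Submodule.mem_span_range_iff_exists_fun ℝ).1 (h2 h1)
  refine ⟨c, fun θ => ?_⟩
  have := congrFun hc θ
  simp only [Finset.sum_apply, Pi.smul_apply, smul_eq_mul] at this
  rw [← this]
  exact Finset.sum_congr rfl fun j _ => by ring

theorem trig_case (M : ℕ) (hM : 1 < M) (Φ A : Matrix (Fin (2 * M - 1)) (Fin M) ℝ)
    (G H : Matrix (Fin M) (Fin M) ℝ) (g h : ℝ) (hA : A = Φ * G) (hGH : G * H = 1)
    (hg : ∀ x : Fin M → ℝ, nrm (G.mulVec x) ≤ g * nrm x)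
    (hh : ∀ y : Fin M → ℝ, nrm (Matrix.vecMul y H) ≤ h * nrm y) (hΦ : IsTrig Φ) :
    ∃ S : Finset (Fin (2 * M - 1)), M ≤ S.card ∧
      ∃ x : Fin M → ℝ, ∑ j, x j ^ 2 = 1 ∧ ∃ k,
      Real.sqrt (∑ i ∈ S, (∑ j, A i j * x j) ^ 2) ≤ 20 * (g * h) * nrm (A k) * (4 / 5 : ℝ) ^ M := by
  classical
  obtain ⟨w, θ, hΦ⟩ := hΦ
  have hΦ' : ∀ i j, Φ i j = w i * trg (j : ℕ) (θ i) := hΦ
  obtain ⟨k, hk⟩ := exists_row Φ (by omega)
  have hM0 : 0 < M := by omega
  have hw : ∀ i, |w i| ≤ nrm (Φ i) := by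
    intro i
    have := abs_le_nrm (Φ i) ⟨0, hM0⟩
    rw [hΦ'] at this
    simpa [trg] using this
  have main : ∀ (S : Finset (Fin (2 * M - 1))) (a θ₀ : ℝ), 1 + a * Real.cos θ₀ = 2 →
      (∀ i ∈ S, |1 + a * Real.cos (θ i)| ≤ 1) →
      ∃ x : Fin M → ℝ, ∑ j, x j ^ 2 = 1 ∧
        Real.sqrt (∑ i ∈ S, (∑ j, A i j * x j) ^ 2) ≤
          20 * (g * h) * nrm (A k) * (4 / 5 : ℝ) ^ M := by
    intro S a θ₀ h0 hS
    obtain ⟨p, hp⟩ := trig_coeff M hM a
    refine core M hM Φ A G H g h hA hGH hg hh S p (fun j => ((trg (j : ℕ) θ₀ : ℝ) : ℂ)) ?_ ?_ k ?_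
    · intro j
      rw [Complex.norm_real, Real.norm_eq_abs]
      exact abs_trg_le _ _
    · have h1 : ∑ j : Fin M, (p j : ℂ) * ((trg (j : ℕ) θ₀ : ℝ) : ℂ) =
          (((∑ j : Fin M, trg (j : ℕ) θ₀ * p j : ℝ)) : ℂ) := by
        push_cast
        exact Finset.sum_congr rfl fun j _ => by ring
      rw [h1, hp θ₀, h0, Complex.norm_real, Real.norm_eq_abs, abs_of_pos (by positivity)]
    · intro i hi
      refine le_trans ?_ (hk i)
      have h1 : ∑ j, Φ i j * p j = w i * (1 + a * Real.cos (θ i)) ^ ((M - 1) / 2) := by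
        rw [← hp (θ i), Finset.mul_sum]
        exact Finset.sum_congr rfl fun j _ => by rw [hΦ']; ring
      rw [h1, abs_mul, abs_pow]
      calc |w i| * |1 + a * Real.cos (θ i)| ^ ((M - 1) / 2) ≤ |w i| * 1 :=
            mul_le_mul_of_nonneg_left (pow_le_one₀ (abs_nonneg _) (hS i hi)) (abs_nonneg _)
        _ ≤ nrm (Φ i) := by rw [mul_one]; exact hw i
  by_cases hcard : M ≤ (Finset.univ.filter (fun i => 0 ≤ Real.cos (θ i))).card
  · obtain ⟨x, hx1, hx2⟩ := main (Finset.univ.filter (fun i => 0 ≤ Real.cos (θ i))) (-1) Real.pi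
      (by rw [Real.cos_pi]; norm_num) (by
        intro i hi
        rw [Finset.mem_filter] at hi
        have h1 := Real.cos_le_one (θ i)
        have h2 := hi.2
        rw [abs_le]; constructor <;> linarith)
    exact ⟨_, hcard, x, hx1, k, hx2⟩
  · have hcard2 : M ≤ (Finset.univ.filter (fun i => ¬ 0 ≤ Real.cos (θ i))).card := by
      have h1 := Finset.card_filter_add_card_filter_not (s := (Finset.univ : Finset (Fin (2 * M - 1))))
        (fun i => 0 ≤ Real.cos (θ i))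
      rw [Finset.card_univ, Fintype.card_fin] at h1
      omega
    obtain ⟨x, hx1, hx2⟩ := main (Finset.univ.filter (fun i => ¬ 0 ≤ Real.cos (θ i))) 1 0
      (by rw [Real.cos_zero]; norm_num) (by
        intro i hi
        rw [Finset.mem_filter] at hi
        have h1 := Real.neg_one_le_cos (θ i)
        have h2 := not_le.1 hi.2
        rw [abs_le]; constructor <;> linarith)
    exact ⟨_, hcard2, x, hx1, k, hx2⟩

/-- The Balan–Wang bound for all frames that lie, up to the lengths of the vectors and a linear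
change of variables with condition number `g * h`, on the moment curve or on the trigonometric
curve. -/
theorem result :
    ∀ M : ℕ, 1 < M → ∀ A Φ : Matrix (Fin (2 * M - 1)) (Fin M) ℝ,
      ∀ (G H : Matrix (Fin M) (Fin M) ℝ) (g h : ℝ),
        (IsMoment Φ ∨ IsTrig Φ) → A = Φ * G → G * H = 1 →
        (∀ x : Fin M → ℝ, nrm (G.mulVec x) ≤ g * nrm x) →
        (∀ y : Fin M → ℝ, nrm (Matrix.vecMul y H) ≤ h * nrm y) →
        ∃ S : Finset (Fin (2 * M - 1)),
          Module.finrank ℝ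
              (Submodule.span ℝ
                (Set.range (fun i : {i : Fin (2 * M - 1) // i ∉ S} => A i.1))) < M ∧
          ∃ x : Fin M → ℝ, ∑ j, x j ^ 2 = 1 ∧
            ∃ k : Fin (2 * M - 1),
              Real.sqrt (∑ i ∈ S, (∑ j, A i j * x j) ^ 2)
                ≤ 20 * (g * h) * Real.sqrt (∑ j, A k j ^ 2) * (4 / 5 : ℝ) ^ M := by
  intro M hM A Φ G H g h hΦ hA hGH hg hh
  have key : ∃ S : Finset (Fin (2 * M - 1)), M ≤ S.card ∧
      ∃ x : Fin M → ℝ, ∑ j, x j ^ 2 = 1 ∧ ∃ k,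
      Real.sqrt (∑ i ∈ S, (∑ j, A i j * x j) ^ 2) ≤
        20 * (g * h) * nrm (A k) * (4 / 5 : ℝ) ^ M := by
    rcases hΦ with hΦ | hΦ
    · exact moment_case M hM Φ A G H g h hA hGH hg hh hΦ
    · exact trig_case M hM Φ A G H g h hA hGH hg hh hΦ
  obtain ⟨S, hS, x, hx, k, hk⟩ := key
  exact ⟨S, concl_of_card M hM A S hS, x, hx, k, hk⟩

end Pool.Agent.Results.MP_686ee2_an.MomentTrig
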